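import Pool.Agent.Helper47.M.Defs
import Pool.Agent.Helper24.MP.Sig

/-!
# Theorem M, block K: the generic point of a component is a full point
-/

set_option autoImplicit false

namespace Pool.Agent.Helper37.M

open MvPolynomial Pool.Agent.Helper15 Pool.Agent.Helper47.M

theorem isGenusOne_map {K E : Type} [Field K] [Field E] [Algebra K E] (σ : E ≃ₐ[K] E)
    (B : IntermediateField K E) (h : IsGenusOne B) :
    IsGenusOne (B.map (σ : E →ₐ[K] E)) :=
  Pool.Agent.Helper24.MP.isGenusOne_map h σ

variable {k l : ℕ} {N : Fin k → ℕ} {d : Fin l → Fin k → ℕ}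

/-- forms and ring homomorphisms -/
theorem fv_map' {e : Fin k → ℕ} {S S' : Type*} [CommRing S] [CommRing S'] (f : S →+* S')
    (a : Tn N e → S) (x : Pt N S) :
    f (fv a x) = fv (fun m => f (a m)) (fun r i => f (x r i)) := by
  simp only [fv, tv, map_sum, map_mul, map_prod]

theorem Fm_map' {S S' : Type*} [CommRing S] [CommRing S'] (f : S →+* S')
    (c : Tx N d → S) (x : Pt N S) (i : Fin l) :
    f (Fm c x i) = Fm (fun e => f (c e)) (fun r j => f (x r j)) i :=
  fv_map' f _ x

theorem card_ne (N : Fin k → ℕ) (r : Fin k) :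
    Fintype.card {q : Vr N // q.1 ≠ r} + N r = ∑ j, N j := by
  have h1 : Fintype.card {q : Vr N // q.1 = r} = N r := by
    rw [Fintype.card_congr (Equiv.sigmaSubtype r), Fintype.card_fin]
  have h2 : Fintype.card (Vr N) = ∑ j, N j := by
    simp [Vr, Fintype.card_sigma]
  have h3 := Fintype.card_subtype_compl (fun q : Vr N => q.1 = r)
  have h4 : Fintype.card {q : Vr N // q.1 = r} ≤ Fintype.card (Vr N) :=
    Fintype.card_subtype_le _
  have h5 : Fintype.card {q : Vr N // q.1 ≠ r} = Fintype.card {q : Vr N // ¬ q.1 = r} := rfl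
  omega

section

variable {K E : Type} [Field K] [Field E] [Algebra K E]

/-- general form: a surjection up to fractions -/
theorem full_of_hom (c : Tx N d → K) (π : MvPolynomial (Vr N) K →ₐ[K] E)
    (hI : ∀ F ∈ idl c, π F = 0)
    (hfrac : ∀ z : E, ∃ F G, z = π F / π G)
    (helim : ∀ r : Fin k, ∀ Φ, π Φ = 0 → (∀ v ∈ Φ.vars, v.1 ≠ r) → Φ = 0)
    (htr : ((∑ r, N r - l : ℕ) : Cardinal) ≤ Algebra.trdeg K E) :
    FullPt K c (fun r i => π (ch K N r i)) := by
  classical
  set x : Pt N E := fun r i => π (ch K N r i) with hx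
  have hX : ∀ q : Vr N, π (X q) = x q.1 q.2.succ := by
    rintro ⟨r, j⟩
    simp [hx, ch]
  have h1 : ∀ j, x j 0 = 1 := by
    intro j
    simp [hx, ch]
  have hae : ∀ F : MvPolynomial (Vr N) K, π F = aeval (fun q : Vr N => x q.1 q.2.succ) F := by
    intro F
    have : π = aeval (fun q : Vr N => x q.1 q.2.succ) := by
      apply MvPolynomial.algHom_ext
      intro q
      rw [aeval_X, hX]
    rw [← this]
  have htop : Bf K x ∅ = ⊤ := by
    rw [eq_top_iff]
    intro z _
    have hm : ∀ F : MvPolynomial (Vr N) K, π F ∈ Bf K x ∅ := by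
      intro F
      induction F using MvPolynomial.induction_on with
      | C a =>
        have : π (C a) = algebraMap K E a := by
          rw [← MvPolynomial.algebraMap_eq]
          exact π.commutes a
        rw [this]
        exact (Bf K x ∅).algebraMap_mem a
      | add p q hp hq => rw [map_add]; exact add_mem hp hq
      | mul_X p q hp =>
        rw [map_mul, hX]
        refine mul_mem hp (IntermediateField.subset_adjoin _ _ ⟨q.1, ?_, q.2.succ, rfl⟩)
        exact Set.notMem_empty _
    obtain ⟨F, G, rfl⟩ := hfrac z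
    exact div_mem (hm F) (hm G)
  have hind : ∀ r, AlgebraicIndependent K (fun q : {q : Vr N // q.1 ≠ r} =>
      x q.1.1 q.1.2.succ) := by
    intro r
    rw [algebraicIndependent_iff]
    intro p hp
    have h2 : π (rename (Subtype.val : {q : Vr N // q.1 ≠ r} → Vr N) p) = 0 := by
      rw [hae, aeval_rename]
      exact hp
    have h3 := helim r _ h2 (by
      intro v hv
      have := vars_rename (Subtype.val : {q : Vr N // q.1 ≠ r} → Vr N) p hv
      obtain ⟨w, _, rfl⟩ := Finset.mem_image.1 this
      exact w.2)
    exact (rename_injective _ Subtype.val_injective) (by rw [h3, map_zero])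
  refine ⟨?_, h1, hind, ?_, htop⟩
  · intro i
    have h2 : π (Fm (fun e => C (c e)) (ch K N) i) = 0 :=
      hI _ (Ideal.subset_span ⟨i, rfl⟩)
    have h3 := Fm_map' (π : MvPolynomial (Vr N) K →+* E) (fun e => C (c e)) (ch K N) i
    rw [← h2]
    refine Eq.trans ?_ h3.symm
    congr 1
    funext e
    have : (π : MvPolynomial (Vr N) K →+* E) (C (c e)) = algebraMap K E (c e) := by
      rw [← MvPolynomial.algebraMap_eq]
      exact π.commutes (c e)
    exact this.symm
  · intro r hr
    by_contra hcon
    push Not at hcon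
    have halg : ∀ e, IsAlgebraic (Bf K x {r}) (x r e) := by
      intro e
      have := hcon e
      unfold Transcendental at this
      exact not_not.1 this
    -- all of `E` is algebraic over `Bf K x {r}`
    have hA : Algebra.IsAlgebraic (Bf K x {r}) E := by
      constructor
      intro z
      have hz : z ∈ Bf K x ∅ := by rw [htop]; trivial
      have hle : Bf K x ∅ ≤ (algebraicClosure (Bf K x {r}) E).restrictScalars K := by
        unfold Bf
        rw [IntermediateField.adjoin_le_iff]
        rintro y ⟨j, -, e, rfl⟩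
        show x j e ∈ (algebraicClosure (Bf K x {r}) E).restrictScalars K
        rw [IntermediateField.mem_restrictScalars, mem_algebraicClosure_iff]
        by_cases hj : j = r
        · subst hj
          exact halg e
        · have hm : x j e ∈ Bf K x {r} :=
            IntermediateField.subset_adjoin _ _ ⟨j, hj, e, rfl⟩
          exact isAlgebraic_algebraMap (⟨x j e, hm⟩ : Bf K x {r})
      have := hle hz
      rwa [IntermediateField.mem_restrictScalars, mem_algebraicClosure_iff] at this
    set v : {q : Vr N // q.1 ≠ r} → E := fun q => x q.1.1 q.1.2.succ with hv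
    have hB : Bf K x {r} = IntermediateField.adjoin K (Set.range v) := by
      apply le_antisymm
      · unfold Bf
        rw [IntermediateField.adjoin_le_iff]
        rintro y ⟨j, hj, e, rfl⟩
        induction e using Fin.cases with
        | zero =>
          show x j 0 ∈ _
          rw [h1 j]
          exact one_mem _
        | succ e =>
          exact IntermediateField.subset_adjoin _ _ ⟨⟨⟨j, e⟩, hj⟩, rfl⟩
      · rw [IntermediateField.adjoin_le_iff]
        rintro _ ⟨q, rfl⟩
        exact IntermediateField.subset_adjoin _ _ ⟨q.1.1, q.2, q.1.2.succ, rfl⟩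
    rw [hB] at hA
    have hA2 : Algebra.IsAlgebraic (Algebra.adjoin K (Set.range v)) E :=
      IntermediateField.isAlgebraic_adjoin_iff_top.1 hA
    have h4 : Algebra.trdeg K E ≤ Cardinal.mk (Set.range v) :=
      Algebra.IsAlgebraic.trdeg_le_cardinalMk K (Set.range v)
    have h5 : Cardinal.mk (Set.range v) ≤ (Fintype.card {q : Vr N // q.1 ≠ r} : ℕ) := by
      refine Cardinal.mk_range_le.trans ?_
      rw [Cardinal.mk_fintype]
    have h6 := (htr.trans h4).trans h5
    have h7 : ∑ r, N r - l ≤ Fintype.card {q : Vr N // q.1 ≠ r} := by exact_mod_cast h6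
    have h8 := card_ne N r
    omega

end

theorem full_of_dom {K : Type} [Field K] [CharZero K] (_h : Ty N d) (c : Tx N d → K)
    (P : Ideal (MvPolynomial (Vr N) K))
    (hP : IsDom (idl c) (∑ r, N r - l) P) [P.IsPrime] :
    FullPt K c (fun r i => algebraMap (MvPolynomial (Vr N) K ⧸ P)
      (FractionRing (MvPolynomial (Vr N) K ⧸ P)) (Ideal.Quotient.mk P (ch K N r i))) := by
  set A := MvPolynomial (Vr N) K ⧸ P with hA
  set E := FractionRing A with hE
  let π : MvPolynomial (Vr N) K →ₐ[K] E :=
    (IsScalarTower.toAlgHom K A E).comp (Ideal.Quotient.mkₐ K P)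
  have hπ : ∀ F, π F = algebraMap A E (Ideal.Quotient.mk P F) := fun F => rfl
  have hz : ∀ F, π F = 0 ↔ F ∈ P := by
    intro F
    rw [hπ, IsFractionRing.to_map_eq_zero_iff, Ideal.Quotient.eq_zero_iff_mem]
  refine full_of_hom c π (fun F hF => (hz F).2 (hP.le hF)) ?_
    (fun r Φ hΦ hv => hP.elim r Φ ((hz Φ).1 hΦ) hv) ?_
  · intro z
    obtain ⟨a, b, -, rfl⟩ := IsFractionRing.div_surjective (A := A) z
    obtain ⟨F, rfl⟩ := Ideal.Quotient.mk_surjective a
    obtain ⟨G, rfl⟩ := Ideal.Quotient.mk_surjective b
    exact ⟨F, G, rfl⟩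
  · rw [← hP.trdeg]
    exact trdeg_le_of_injective (IsScalarTower.toAlgHom K A E) (IsFractionRing.injective A E)

end Pool.Agent.Helper37.M
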